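import Mathlib

/-!
# Swarm FN, part GAIN: basic lemmas
-/

set_option autoImplicit false

namespace Pool.Agent.Helper34.FN

open MeasureTheory MvPolynomial

/-- Euclidean norm -/
noncomputable def nm {n : ℕ} (z : Fin n → ℂ) : ℝ := √(∑ j, ‖z j‖ ^ 2)

/-- the vector `s e_j` -/
noncomputable def sg {n : ℕ} (j : Fin n) (s : ℂ) : Fin n → ℂ := Pi.single j s

theorem nm_eq {n : ℕ} (z : Fin n → ℂ) : nm z = ‖WithLp.toLp 2 z‖ := by
  rw [EuclideanSpace.norm_eq]; rfl

theorem nm_nonneg {n : ℕ} (z : Fin n → ℂ) : 0 ≤ nm z := Real.sqrt_nonneg _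

theorem nm_add {n : ℕ} (x y : Fin n → ℂ) : nm (x + y) ≤ nm x + nm y := by
  simp only [nm_eq, WithLp.toLp_add]; exact norm_add_le _ _

theorem nm_neg {n : ℕ} (x : Fin n → ℂ) : nm (-x) = nm x := by
  simp only [nm_eq, WithLp.toLp_neg]; exact norm_neg _

theorem nm_single {n : ℕ} (j : Fin n) (s : ℂ) : nm (sg j s) = ‖s‖ := by
  unfold sg
  rw [nm, Finset.sum_eq_single j (fun i _ hi => by rw [Pi.single_eq_of_ne hi]; simp)
    (fun h => absurd (Finset.mem_univ j) h), Pi.single_eq_same, Real.sqrt_sq (norm_nonneg _)]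

theorem nm_smul {n : ℕ} (c : ℂ) (x : Fin n → ℂ) : nm (c • x) = ‖c‖ * nm x := by
  simp only [nm_eq, WithLp.toLp_smul]; exact norm_smul _ _

theorem continuous_nm {n : ℕ} : Continuous (nm : (Fin n → ℂ) → ℝ) := by
  unfold nm; fun_prop

theorem norm_le_nm {n : ℕ} (x : Fin n → ℂ) : ‖x‖ ≤ nm x := by
  refine (pi_norm_le_iff_of_nonneg (nm_nonneg x)).2 fun j => ?_
  rw [nm]
  refine Real.le_sqrt_of_sq_le ?_
  exact Finset.single_le_sum (f := fun j => ‖x j‖ ^ 2) (fun i _ => by positivity) (Finset.mem_univ j)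

theorem isCompact_nm_le {n : ℕ} (R : ℝ) : IsCompact {z : Fin n → ℂ | nm z ≤ R} := by
  refine Metric.isCompact_of_isClosed_isBounded (isClosed_le continuous_nm continuous_const) ?_
  refine Metric.isBounded_closedBall (x := 0) (r := R) |>.subset fun z hz => ?_
  rw [mem_closedBall_zero_iff]
  exact (norm_le_nm z).trans hz

theorem isCompact_nm_eq {n : ℕ} (R : ℝ) : IsCompact {z : Fin n → ℂ | nm z = R} := by
  refine (isCompact_nm_le R).of_isClosed_subset (isClosed_eq continuous_nm continuous_const) ?_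
  intro z hz
  exact le_of_eq hz

/-- the ratio `1 + nm` -/
theorem ratio {n : ℕ} (z : Fin n → ℂ) (j : Fin n) (L : ℝ) (hz : 2 * L ≤ nm z) (s : ℂ)
    (hs : ‖s‖ ≤ L) :
    1 + nm (z + sg j s) ≤ 2 * (1 + nm z) ∧ 1 + nm z ≤ 2 * (1 + nm (z + sg j s)) := by
  have h1 := nm_add z (sg j s)
  have h2 := nm_add (z + sg j s) (-(sg j s))
  rw [add_neg_cancel_right, nm_neg] at h2
  rw [nm_single] at h1 h2
  have := norm_nonneg s
  constructor <;> linarith

theorem eval_smul {n d : ℕ} {φ : MvPolynomial (Fin n) ℂ} (h : φ.IsHomogeneous d) (c : ℂ)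
    (z : Fin n → ℂ) : eval (c • z) φ = c ^ d * eval z φ := by
  rw [eval_eq', eval_eq', Finset.mul_sum]
  refine Finset.sum_congr rfl fun α hα => ?_
  have h1 : ∑ i, α i = d := by
    have := h (mem_support_iff.1 hα)
    rw [← this, Finsupp.weight_apply]
    simp [Finsupp.sum_fintype]
  simp only [Pi.smul_apply, smul_eq_mul, mul_pow, Finset.prod_mul_distrib]
  rw [Finset.prod_pow_eq_pow_sum, h1]
  ring

theorem continuous_eval' {n : ℕ} (φ : MvPolynomial (Fin n) ℂ) :
    Continuous (fun z : Fin n → ℂ => eval z φ) := by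
  exact MvPolynomial.continuous_eval φ

theorem sg_zero {n : ℕ} (j : Fin n) : sg j 0 = 0 := by unfold sg; exact Pi.single_zero j

theorem smul_sg {n : ℕ} (j : Fin n) (c s : ℂ) : c • sg j s = sg j (c * s) := by
  unfold sg; rw [← Pi.single_smul, smul_eq_mul]

/-- derivative of the coordinates along a line -/
theorem hasDerivAt_coord {n : ℕ} (z : Fin n → ℂ) (j i : Fin n) (s : ℂ) :
    HasDerivAt (fun t : ℂ => (z + sg j t) i)
      (eval (z + sg j s) (pderiv j (X i : MvPolynomial (Fin n) ℂ))) s := by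
  rw [pderiv_X]
  by_cases hij : j = i
  · subst hij
    simp only [sg, Pi.add_apply, Pi.single_eq_same, map_one]
    exact (hasDerivAt_id s).const_add _
  · have h1 : i ≠ j := fun h => hij h.symm
    have h2 : (Pi.single j (1 : MvPolynomial (Fin n) ℂ) : Fin n → MvPolynomial (Fin n) ℂ) i = 0 :=
      Pi.single_eq_of_ne h1 _
    have h3 : (fun t : ℂ => (z + sg j t) i) = fun _ => z i := by
      funext t
      simp only [sg, Pi.add_apply, Pi.single_eq_of_ne h1, add_zero]
    rw [h2, h3, map_zero]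
    exact hasDerivAt_const s _

/-- derivative along a coordinate -/
theorem hasDerivAt_line {n : ℕ} (φ : MvPolynomial (Fin n) ℂ) (z : Fin n → ℂ) (j : Fin n) (s : ℂ) :
    HasDerivAt (fun t : ℂ => eval (z + sg j t) φ)
      (eval (z + sg j s) (pderiv j φ)) s := by
  induction φ using MvPolynomial.induction_on with
  | C a => simpa using hasDerivAt_const s a
  | add p q hp hq =>
    simp only [map_add]
    exact hp.add hq
  | mul_X p i hp =>
    have h3 := hp.mul (hasDerivAt_coord z j i s)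
    rw [Derivation.leibniz]
    simp only [smul_eq_mul, map_add, map_mul, eval_X]
    refine h3.congr_deriv ?_
    ring

/-- E2': slow variation of a homogeneous polynomial -/
theorem slow {n m : ℕ} {φ : MvPolynomial (Fin n) ℂ} (h : φ.IsHomogeneous m) (ε L : ℝ) (hε : 0 < ε)
    (hL : 0 < L) : ∃ R : ℝ, ∀ (z : Fin n → ℂ) (j : Fin n) (s : ℂ), R ≤ nm z → ‖s‖ ≤ L →
      ‖eval (z + sg j s) φ - eval z φ‖ ≤ ε * (1 + nm z) ^ m := by
  have huc : UniformContinuousOn (fun z : Fin n → ℂ => eval z φ) (Metric.closedBall 0 2) :=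
    (isCompact_closedBall 0 2).uniformContinuousOn_of_continuous (continuous_eval' φ).continuousOn
  obtain ⟨δ, hδ, hd⟩ := Metric.uniformContinuousOn_iff.1 huc ε hε
  refine ⟨L / min (δ / 2) 1 + 1, fun z j s hz hs => ?_⟩
  have hmin : 0 < min (δ / 2) 1 := lt_min (by linarith) one_pos
  have hLm : 0 < L / min (δ / 2) 1 := div_pos hL hmin
  have hr : 0 < nm z := by linarith
  have hr0 : (nm z : ℂ) ≠ 0 := by exact_mod_cast hr.ne'
  have hsr : ‖s‖ / nm z ≤ min (δ / 2) 1 := by
    rw [div_le_iff₀ hr]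
    have : L / min (δ / 2) 1 ≤ nm z := by linarith
    rw [div_le_iff₀ hmin] at this
    nlinarith
  set a : Fin n → ℂ := (nm z : ℂ)⁻¹ • z with ha
  set t : ℂ := s / nm z with ht
  have hza : z = (nm z : ℂ) • a := by rw [ha, smul_smul, mul_inv_cancel₀ hr0, one_smul]
  have hst : sg j s = (nm z : ℂ) • sg j t := by
    rw [smul_sg, ht, mul_div_cancel₀ _ hr0]
  have hnt : ‖t‖ = ‖s‖ / nm z := by
    rw [ht, norm_div, Complex.norm_real, Real.norm_of_nonneg hr.le]
  have hna : nm a = 1 := by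
    rw [ha, nm_smul, norm_inv, Complex.norm_real, Real.norm_of_nonneg hr.le, inv_mul_cancel₀ hr.ne']
  have h1 : ‖a‖ ≤ 1 := (norm_le_nm a).trans hna.le
  have h2 : ‖sg j t‖ ≤ min (δ / 2) 1 := by
    refine (norm_le_nm _).trans ?_
    rw [nm_single, hnt]; exact hsr
  have h3 := hd (a + sg j t) (by
      rw [mem_closedBall_zero_iff]
      have := norm_add_le a (sg j t)
      have := min_le_right (δ / 2) 1
      linarith) a (by rw [mem_closedBall_zero_iff]; linarith) (by
      rw [dist_eq_norm, add_sub_cancel_left]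
      have := min_le_left (δ / 2) 1
      linarith)
  rw [dist_eq_norm] at h3
  have e1 : eval (z + sg j s) φ = (nm z : ℂ) ^ m * eval (a + sg j t) φ := by
    rw [← eval_smul h, smul_add, ← hza, ← hst]
  have e2 : eval z φ = (nm z : ℂ) ^ m * eval a φ := by
    rw [← eval_smul h, ← hza]
  rw [e1, e2, ← mul_sub, norm_mul, norm_pow, Complex.norm_real, Real.norm_of_nonneg hr.le]
  calc nm z ^ m * ‖eval (a + sg j t) φ - eval a φ‖ ≤ nm z ^ m * ε :=
        mul_le_mul_of_nonneg_left h3.le (by positivity)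
    _ ≤ (1 + nm z) ^ m * ε := by
        refine mul_le_mul_of_nonneg_right ?_ hε.le
        exact pow_le_pow_left₀ hr.le (by linarith) m
    _ = ε * (1 + nm z) ^ m := mul_comm _ _

/-- E1: first order Taylor formula -/
theorem taylor {n m : ℕ} {φ : MvPolynomial (Fin n) ℂ} {j : Fin n}
    (h : (pderiv j φ).IsHomogeneous m) (ε L : ℝ) (hε : 0 < ε)
    (hL : 0 < L) : ∃ R : ℝ, ∀ (z : Fin n → ℂ) (s : ℂ), R ≤ nm z → ‖s‖ ≤ L →
      ‖eval (z + sg j s) φ - eval z φ - eval z (pderiv j φ) * s‖ ≤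
        ε * (1 + nm z) ^ m * ‖s‖ := by
  obtain ⟨R, hR⟩ := slow h ε L hε hL
  refine ⟨R, fun z s hz hs => ?_⟩
  have key := (convex_closedBall (0 : ℂ) L).norm_image_sub_le_of_norm_hasDerivWithin_le
    (f := fun t : ℂ => eval (z + sg j t) φ - eval z (pderiv j φ) * t)
    (f' := fun t : ℂ => eval (z + sg j t) (pderiv j φ) - eval z (pderiv j φ))
    (C := ε * (1 + nm z) ^ m) (x := (0 : ℂ)) (y := s)
    (fun t _ => ((hasDerivAt_line φ z j t).sub
      (((hasDerivAt_id t).const_mul (eval z (pderiv j φ))).congr_deriv (by ring))).hasDerivWithinAt)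
    (fun t ht => hR z j t hz (by simpa using ht))
    (by simpa using hL.le) (by simpa using hs)
  simp only [sg_zero, add_zero, mul_zero, sub_zero] at key
  have e : eval (z + sg j s) φ - eval z φ - eval z (pderiv j φ) * s =
      eval (z + sg j s) φ - eval z (pderiv j φ) * s - eval z φ := by ring
  rw [e]
  exact key

end Pool.Agent.Helper34.FN
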