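import Pool.Agent.Helper34.FN.GAIN
import Pool.Agent.Helper14.FN.GAINA

/-!
# Swarm FN, part GAIN (final form, with OSC and COV of helper14)
-/

set_option autoImplicit false

namespace Pool.Agent.Helper34.FN.GAINfin

theorem main (hDISC : Pool.Agent.Helper25.FN.S_DISC) : Pool.Agent.Helper25.FN.S_GAIN :=
  Pool.Agent.Helper34.FN.GAIN.main hDISC
    (fun n Φ hΦ hs L hL => Pool.Agent.Helper14.FN.OSC n Φ hΦ hs L hL)
    (fun n P hd hP => Pool.Agent.Helper14.FN.COV n P hd hP)

end Pool.Agent.Helper34.FN.GAINfin
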