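import Pool.Agent.Helper34.FN.Base

/-!
# Swarm FN, part GAIN: the inequality on one disc
-/

set_option autoImplicit false

namespace Pool.Agent.Helper34.FN

open MeasureTheory MvPolynomial

/-- the statement DISC, for a given constant -/
def Disc (C : ℝ) : Prop :=
  ∀ (L : ℝ) (g q : ℂ → ℂ) (a : ℂ), 0 < L → a ≠ 0 → Differentiable ℂ g →
    Continuous q → (∀ ζ : ℂ, ‖ζ‖ ≤ 2 * L → ‖q ζ - q 0 - a * ζ‖ ≤ ‖a‖ * L / 20) →
    L ^ 2 * ‖a‖ ^ 2 * ∫ ζ in Metric.ball (0 : ℂ) L, ‖g ζ‖ ^ 2 ≤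
      C * ∫ ζ in Metric.ball (0 : ℂ) (2 * L), ‖g ζ‖ ^ 2 * ‖q ζ‖ ^ 2

/-- weighted form on one disc: `h` is `|f|² e^{-2Φ}` along the disc, `|h - |g|² M|` small -/
theorem weighted (C : ℝ) (hC : 0 < C) (hD : Disc C) (L : ℝ) (hL : 0 < L) (g q : ℂ → ℂ) (a : ℂ)
    (ha : a ≠ 0) (hg : Differentiable ℂ g) (hq : Continuous q)
    (hqa : ∀ ζ : ℂ, ‖ζ‖ ≤ 2 * L → ‖q ζ - q 0 - a * ζ‖ ≤ ‖a‖ * L / 20)
    (F G : ℂ → ℝ) (hF : Continuous F) (hG : Continuous G) (α β : ℝ) (hα : 0 ≤ α) (hβ : 0 ≤ β)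
    (h1 : ∀ ζ : ℂ, ‖ζ‖ ≤ 2 * L → F ζ ≤ α * ‖g ζ‖ ^ 2)
    (h2 : ∀ ζ : ℂ, ‖ζ‖ ≤ 2 * L → ‖g ζ‖ ^ 2 * ‖q ζ‖ ^ 2 ≤ β * G ζ)
    (K : ℝ) (hK : α * C * β ≤ K * ‖a‖ ^ 2) (hG0 : ∀ ζ, 0 ≤ G ζ) :
    L ^ 2 * ∫ ζ in Metric.ball (0 : ℂ) L, F ζ ≤
      K * ∫ ζ in Metric.ball (0 : ℂ) (2 * L), G ζ := by
  have hint : ∀ (H : ℂ → ℝ), Continuous H → ∀ r : ℝ, IntegrableOn H (Metric.ball (0 : ℂ) r) := by
    intro H hH r
    refine IntegrableOn.mono_set (t := Metric.closedBall (0 : ℂ) r) ?_ Metric.ball_subset_closedBall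
    exact hH.continuousOn.integrableOn_compact (isCompact_closedBall 0 r)
  have hgc : Continuous fun ζ => ‖g ζ‖ ^ 2 := (hg.continuous.norm).pow 2
  have hgq : Continuous fun ζ => ‖g ζ‖ ^ 2 * ‖q ζ‖ ^ 2 := hgc.mul (hq.norm.pow 2)
  have e1 : ∫ ζ in Metric.ball (0 : ℂ) L, F ζ ≤
      α * ∫ ζ in Metric.ball (0 : ℂ) L, ‖g ζ‖ ^ 2 := by
    rw [← integral_const_mul]
    refine setIntegral_mono_on (hint F hF L) ((hint _ hgc L).const_mul α)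
      Metric.isOpen_ball.measurableSet fun ζ hζ => h1 ζ ?_
    rw [mem_ball_zero_iff] at hζ
    linarith
  have e2 : ∫ ζ in Metric.ball (0 : ℂ) (2 * L), ‖g ζ‖ ^ 2 * ‖q ζ‖ ^ 2 ≤
      β * ∫ ζ in Metric.ball (0 : ℂ) (2 * L), G ζ := by
    rw [← integral_const_mul]
    refine setIntegral_mono_on (hint _ hgq _) ((hint G hG _).const_mul β)
      Metric.isOpen_ball.measurableSet fun ζ hζ => h2 ζ ?_
    rw [mem_ball_zero_iff] at hζ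
    exact hζ.le
  have e3 := hD L g q a hL ha hg hq hqa
  have ha2 : 0 < ‖a‖ ^ 2 := by have := norm_pos_iff.2 ha; positivity
  have hGn : 0 ≤ ∫ ζ in Metric.ball (0 : ℂ) (2 * L), G ζ := integral_nonneg hG0
  set I1 := ∫ ζ in Metric.ball (0 : ℂ) L, F ζ
  set I2 := ∫ ζ in Metric.ball (0 : ℂ) L, ‖g ζ‖ ^ 2
  set I3 := ∫ ζ in Metric.ball (0 : ℂ) (2 * L), ‖g ζ‖ ^ 2 * ‖q ζ‖ ^ 2
  set I4 := ∫ ζ in Metric.ball (0 : ℂ) (2 * L), G ζ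
  have e4 : ‖a‖ ^ 2 * (L ^ 2 * I1) ≤ ‖a‖ ^ 2 * (K * I4) := by
    calc ‖a‖ ^ 2 * (L ^ 2 * I1) = (L ^ 2 * ‖a‖ ^ 2) * I1 := by ring
      _ ≤ (L ^ 2 * ‖a‖ ^ 2) * (α * I2) := mul_le_mul_of_nonneg_left e1 (by positivity)
      _ = α * (L ^ 2 * ‖a‖ ^ 2 * I2) := by ring
      _ ≤ α * (C * I3) := mul_le_mul_of_nonneg_left e3 hα
      _ ≤ α * (C * (β * I4)) := by
          refine mul_le_mul_of_nonneg_left (mul_le_mul_of_nonneg_left e2 hC.le) hα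
      _ = (α * C * β) * I4 := by ring
      _ ≤ (K * ‖a‖ ^ 2) * I4 := mul_le_mul_of_nonneg_right hK hGn
      _ = ‖a‖ ^ 2 * (K * I4) := by ring
  exact le_of_mul_le_mul_left e4 ha2

/-- real-linear functionals along a disc -/
theorem lin_along {n : ℕ} (D : (Fin n → ℂ) →L[ℝ] ℝ) (j : Fin n) (s : ℂ) :
    D (sg j s) = (s * ((D (sg j 1) : ℂ) - Complex.I * (D (sg j Complex.I) : ℂ))).re := by
  have h1 : sg j s = s.re • sg j 1 + s.im • sg j Complex.I := by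
    have e : ∀ (r : ℝ) (u : ℂ), r • sg j u = sg j (r * u) := by
      intro r u
      unfold sg
      rw [← Pi.single_smul, Complex.real_smul]
    rw [e, e]
    unfold sg
    rw [← Pi.single_add]
    congr 1
    rw [mul_one]
    exact (Complex.re_add_im s).symm
  rw [h1, map_add, map_smul, map_smul]
  simp [Complex.mul_re, Complex.sub_re, Complex.sub_im]

end Pool.Agent.Helper34.FN
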