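import Pool.Agent.Helper34.FN.Meas
import Pool.Agent.Helper34.FN.PW

/-!
# Swarm FN, part GAIN: the weighted inequality on one disc
-/

set_option autoImplicit false

namespace Pool.Agent.Helper34.FN

open MeasureTheory MvPolynomial

/-- the density of the left side -/
noncomputable def Fw {n : ℕ} (d : ℕ) (Φ : (Fin n → ℂ) → ℝ) (f : (Fin n → ℂ) → ℂ)
    (z : Fin n → ℂ) : ℝ :=
  ‖f z‖ ^ 2 * ((1 + nm z) ^ ((d : ℤ) - 2) * Real.exp (-2 * Φ z))

/-- the density of the right side -/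
noncomputable def Gw {n : ℕ} (d : ℕ) (φ : MvPolynomial (Fin n) ℂ) (Φ : (Fin n → ℂ) → ℝ)
    (f : (Fin n → ℂ) → ℂ) (z : Fin n → ℂ) : ℝ :=
  ‖f z‖ ^ 2 * (‖eval z φ‖ ^ 2 * (1 + nm z) ^ (-(d : ℤ)) * Real.exp (-2 * Φ z))

theorem one_nm_pos {n : ℕ} (z : Fin n → ℂ) : 0 < 1 + nm z := by
  have := nm_nonneg z; linarith

theorem continuous_zp {n : ℕ} (k : ℤ) : Continuous fun z : Fin n → ℂ => (1 + nm z) ^ k := by
  refine Continuous.zpow₀ (continuous_const.add continuous_nm) k fun z => Or.inl ?_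
  exact (one_nm_pos z).ne'

theorem continuous_Fw {n : ℕ} (d : ℕ) {Φ : (Fin n → ℂ) → ℝ} {f : (Fin n → ℂ) → ℂ}
    (hΦ : Continuous Φ) (hf : Continuous f) : Continuous (Fw d Φ f) := by
  unfold Fw
  exact (hf.norm.pow 2).mul ((continuous_zp _).mul (Real.continuous_exp.comp (by fun_prop)))

theorem continuous_Gw {n : ℕ} (d : ℕ) (φ : MvPolynomial (Fin n) ℂ) {Φ : (Fin n → ℂ) → ℝ}
    {f : (Fin n → ℂ) → ℂ} (hΦ : Continuous Φ) (hf : Continuous f) : Continuous (Gw d φ Φ f) := by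
  unfold Gw
  exact (hf.norm.pow 2).mul (((((continuous_eval' φ).norm.pow 2)).mul (continuous_zp _)).mul
    (Real.continuous_exp.comp (by fun_prop)))

theorem Fw_nonneg {n : ℕ} (d : ℕ) (Φ : (Fin n → ℂ) → ℝ) (f : (Fin n → ℂ) → ℂ)
    (z : Fin n → ℂ) : 0 ≤ Fw d Φ f z := by
  have := one_nm_pos z
  unfold Fw; positivity

theorem Gw_nonneg {n : ℕ} (d : ℕ) (φ : MvPolynomial (Fin n) ℂ) (Φ : (Fin n → ℂ) → ℝ)
    (f : (Fin n → ℂ) → ℂ) (z : Fin n → ℂ) : 0 ≤ Gw d φ Φ f z := by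
  have := one_nm_pos z
  unfold Gw; positivity

theorem zp1 {x y : ℝ} (hx : 0 < x) (hy : 0 < y) (h1 : x ≤ 2 * y) (h2 : y ≤ 2 * x) {d : ℕ}
    (hd : 1 ≤ d) : x ^ ((d : ℤ) - 2) ≤ 2 ^ d * y ^ ((d : ℤ) - 2) := by
  rcases Nat.lt_or_ge d 2 with h | h
  · have : d = 1 := by omega
    subst this
    have e : ((1 : ℕ) : ℤ) - 2 = -1 := by norm_num
    rw [e, zpow_neg_one, zpow_neg_one, pow_one]
    rw [inv_le_iff_one_le_mul₀ hx]
    rw [mul_assoc, inv_mul_eq_div, ← mul_div_assoc, le_div_iff₀ hy]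
    linarith
  · obtain ⟨m, rfl⟩ : ∃ m, d = m + 2 := ⟨d - 2, by omega⟩
    have e : ((m + 2 : ℕ) : ℤ) - 2 = (m : ℤ) := by push_cast; ring
    rw [e, zpow_natCast, zpow_natCast]
    calc x ^ m ≤ (2 * y) ^ m := pow_le_pow_left₀ hx.le h1 m
      _ = 2 ^ m * y ^ m := mul_pow _ _ _
      _ ≤ 2 ^ (m + 2) * y ^ m := by
          refine mul_le_mul_of_nonneg_right ?_ (by positivity)
          exact pow_le_pow_right₀ (by norm_num) (by omega)

theorem zp2 {x y : ℝ} (hx : 0 < x) (hy : 0 < y) (h1 : x ≤ 2 * y) (d : ℕ) :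
    1 ≤ 2 ^ d * y ^ d * x ^ (-(d : ℤ)) := by
  rw [zpow_neg, zpow_natCast, ← mul_pow, ← div_eq_mul_inv, one_le_div₀ (by positivity)]
  exact pow_le_pow_left₀ hx.le h1 d

theorem exp_half : Real.exp (1 / 2) ≤ 2 := by
  have h := Real.exp_bound_div_one_sub_of_interval (x := 1 / 2) (by norm_num) (by norm_num)
  norm_num at h
  exact h

/-- the weighted inequality on one disc -/
theorem disc_ineq {n : ℕ} (C : ℝ) (hC : 0 < C) (hD : Disc C) (φ : MvPolynomial (Fin n) ℂ) (d : ℕ)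
    (hd : 1 ≤ d) (Φ : (Fin n → ℂ) → ℝ) (hΦ : Continuous Φ) (f : (Fin n → ℂ) → ℂ)
    (hf : Differentiable ℂ f) (L : ℝ) (hL : 0 < L) (z : Fin n → ℂ) (j : Fin n) (c : ℝ) (hc : 0 < c)
    (ha : c * (1 + nm z) ^ (d - 1) ≤ ‖eval z (pderiv j φ)‖)
    (h2 : ∀ s : ℂ, ‖s‖ ≤ 2 * L → ‖eval (z + sg j s) φ - eval z φ - eval z (pderiv j φ) * s‖ ≤
      ‖eval z (pderiv j φ)‖ * L / 20)
    (h3 : ∀ s : ℂ, ‖s‖ ≤ 2 * L → |Φ (z + sg j s) - Φ z - fderiv ℝ Φ z (sg j s)| ≤ 1 / 4)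
    (h4 : 4 * L ≤ nm z) :
    L ^ 2 * ∫ s in Metric.ball (0 : ℂ) L, Fw d Φ f (z + sg j s) ≤
      (C * 4 ^ (d + 1) / c ^ 2) * ∫ s in Metric.ball (0 : ℂ) (2 * L), Gw d φ Φ f (z + sg j s) := by
  have hz : 0 < 1 + nm z := one_nm_pos z
  set w : ℂ := (fderiv ℝ Φ z (sg j 1) : ℂ) - Complex.I * (fderiv ℝ Φ z (sg j Complex.I) : ℂ) with hw
  have hcs : Continuous (fun s : ℂ => z + sg j s) := continuous_const.add (continuous_sg j)
  have hds : Differentiable ℂ (fun s : ℂ => z + sg j s) := by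
    refine differentiable_pi.2 fun i => ?_
    intro s
    exact (hasDerivAt_coord z j i s).differentiableAt
  have ha0 : 0 < ‖eval z (pderiv j φ)‖ := lt_of_lt_of_le (by positivity) ha
  have hgn : ∀ s : ℂ, ‖f (z + sg j s) * Complex.exp (-(s * w))‖ ^ 2 =
      ‖f (z + sg j s)‖ ^ 2 * Real.exp (-2 * fderiv ℝ Φ z (sg j s)) := by
    intro s
    rw [norm_mul, mul_pow, Complex.norm_exp, lin_along (fderiv ℝ Φ z) j s, ← Real.exp_nat_mul,
      Complex.neg_re]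
    congr 2
    push_cast
    ring
  refine weighted C hC hD L hL (fun s => f (z + sg j s) * Complex.exp (-(s * w)))
    (fun s => eval (z + sg j s) φ) (eval z (pderiv j φ)) (norm_pos_iff.1 ha0) ?_
    ((continuous_eval' φ).comp hcs) ?_ (fun s => Fw d Φ f (z + sg j s))
    (fun s => Gw d φ Φ f (z + sg j s)) ((continuous_Fw d hΦ hf.continuous).comp hcs)
    ((continuous_Gw d φ hΦ hf.continuous).comp hcs)
    (2 ^ (d + 1) * (1 + nm z) ^ ((d : ℤ) - 2) * Real.exp (-2 * Φ z))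
    (2 ^ (d + 1) * (1 + nm z) ^ d * Real.exp (2 * Φ z)) (by positivity) (by positivity) ?_ ?_ _ ?_
    (fun s => Gw_nonneg d φ Φ f _)
  · exact (hf.comp hds).mul (by fun_prop)
  · intro s hs
    simpa [sg_zero] using h2 s hs
  · intro s hs
    have hx : 0 < 1 + nm (z + sg j s) := one_nm_pos _
    obtain ⟨r1, r2⟩ := ratio z j (2 * L) (by linarith) s hs
    have z1 := zp1 hx hz r1 r2 hd
    have e1 : Real.exp (-2 * Φ (z + sg j s)) ≤
        2 * (Real.exp (-2 * Φ z) * Real.exp (-2 * fderiv ℝ Φ z (sg j s))) := by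
      rw [← Real.exp_add]
      refine le_trans (Real.exp_le_exp.2 (?_ : _ ≤ 1 / 2 + (-2 * Φ z + -2 * fderiv ℝ Φ z (sg j s)))) ?_
      · have := (abs_le.1 (h3 s hs)).1
        linarith
      · rw [Real.exp_add]
        exact mul_le_mul_of_nonneg_right exp_half (Real.exp_pos _).le
    show Fw d Φ f (z + sg j s) ≤ _ * ‖f (z + sg j s) * Complex.exp (-(s * w))‖ ^ 2
    rw [hgn s, Fw]
    have hzz : 0 < (1 + nm z) ^ ((d : ℤ) - 2) := by positivity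
    have hxx : 0 < (1 + nm (z + sg j s)) ^ ((d : ℤ) - 2) := by positivity
    calc ‖f (z + sg j s)‖ ^ 2 * ((1 + nm (z + sg j s)) ^ ((d : ℤ) - 2) *
          Real.exp (-2 * Φ (z + sg j s)))
        ≤ ‖f (z + sg j s)‖ ^ 2 * ((2 ^ d * (1 + nm z) ^ ((d : ℤ) - 2)) *
          (2 * (Real.exp (-2 * Φ z) * Real.exp (-2 * fderiv ℝ Φ z (sg j s))))) := by
          gcongr
      _ = _ := by rw [pow_succ]; ring
  · intro s hs
    have hx : 0 < 1 + nm (z + sg j s) := one_nm_pos _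
    obtain ⟨r1, r2⟩ := ratio z j (2 * L) (by linarith) s hs
    have z2 := zp2 hx hz r1 d
    have e1 : Real.exp (-2 * fderiv ℝ Φ z (sg j s)) ≤
        2 * (Real.exp (2 * Φ z) * Real.exp (-2 * Φ (z + sg j s))) := by
      rw [← Real.exp_add]
      refine le_trans (Real.exp_le_exp.2 (?_ : _ ≤ 1 / 2 + (2 * Φ z + -2 * Φ (z + sg j s)))) ?_
      · have := (abs_le.1 (h3 s hs)).2
        linarith
      · rw [Real.exp_add]
        exact mul_le_mul_of_nonneg_right exp_half (Real.exp_pos _).le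
    show ‖f (z + sg j s) * Complex.exp (-(s * w))‖ ^ 2 * ‖eval (z + sg j s) φ‖ ^ 2 ≤ _
    rw [hgn s]
    show _ ≤ _ * Gw d φ Φ f (z + sg j s)
    rw [Gw]
    have hxx : 0 < (1 + nm (z + sg j s)) ^ (-(d : ℤ)) := by positivity
    calc ‖f (z + sg j s)‖ ^ 2 * Real.exp (-2 * fderiv ℝ Φ z (sg j s)) * ‖eval (z + sg j s) φ‖ ^ 2
        ≤ ‖f (z + sg j s)‖ ^ 2 * (2 * (Real.exp (2 * Φ z) * Real.exp (-2 * Φ (z + sg j s)))) *
          ‖eval (z + sg j s) φ‖ ^ 2 := by gcongr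
      _ = 1 * (‖f (z + sg j s)‖ ^ 2 * (2 * (Real.exp (2 * Φ z) * Real.exp (-2 * Φ (z + sg j s)))) *
          ‖eval (z + sg j s) φ‖ ^ 2) := by ring
      _ ≤ (2 ^ d * (1 + nm z) ^ d * (1 + nm (z + sg j s)) ^ (-(d : ℤ))) *
          (‖f (z + sg j s)‖ ^ 2 * (2 * (Real.exp (2 * Φ z) * Real.exp (-2 * Φ (z + sg j s)))) *
          ‖eval (z + sg j s) φ‖ ^ 2) := by
          refine mul_le_mul_of_nonneg_right z2 (by positivity)
      _ = _ := by rw [pow_succ]; ring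
  · have e0 : Real.exp (-2 * Φ z) * Real.exp (2 * Φ z) = 1 := by
      rw [← Real.exp_add]; simp
    have e1 : (1 + nm z) ^ ((d : ℤ) - 2) * (1 + nm z) ^ d = ((1 + nm z) ^ (d - 1)) ^ 2 := by
      obtain ⟨m, rfl⟩ : ∃ m, d = m + 1 := ⟨d - 1, by omega⟩
      rw [← zpow_natCast (1 + nm z) (m + 1), ← zpow_add₀ hz.ne', Nat.add_sub_cancel, ← pow_mul,
        ← zpow_natCast]
      congr 1
      push_cast
      ring
    have e2 : (2 : ℝ) ^ (d + 1) * 2 ^ (d + 1) = 4 ^ (d + 1) := by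
      rw [← mul_pow]; norm_num
    calc 2 ^ (d + 1) * (1 + nm z) ^ ((d : ℤ) - 2) * Real.exp (-2 * Φ z) * C *
          (2 ^ (d + 1) * (1 + nm z) ^ d * Real.exp (2 * Φ z))
        = C * ((2 : ℝ) ^ (d + 1) * 2 ^ (d + 1)) * ((1 + nm z) ^ ((d : ℤ) - 2) * (1 + nm z) ^ d) *
          (Real.exp (-2 * Φ z) * Real.exp (2 * Φ z)) := by ring
      _ = C * 4 ^ (d + 1) * ((1 + nm z) ^ (d - 1)) ^ 2 := by rw [e0, e1, e2, mul_one]
      _ = C * 4 ^ (d + 1) / c ^ 2 * (c * (1 + nm z) ^ (d - 1)) ^ 2 := by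
          field_simp
      _ ≤ C * 4 ^ (d + 1) / c ^ 2 * ‖eval z (pderiv j φ)‖ ^ 2 := by
          refine mul_le_mul_of_nonneg_left ?_ (by positivity)
          exact pow_le_pow_left₀ (by positivity) ha 2

end Pool.Agent.Helper34.FN
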