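import Pool.Agent.Helper25.FN.Spec
import Pool.Agent.Helper34.FN.Disc1

/-!
# Swarm FN, part GAIN
-/

set_option autoImplicit false

namespace Pool.Agent.Helper34.FN.GAIN

open MeasureTheory MvPolynomial
open scoped ContDiff
open Pool.Agent.Helper34.FN

/-- oscillation of the weight (helper14) -/
def OSC : Prop := ∀ (n : ℕ) (Φ : (Fin n → ℂ) → ℝ), ContDiff ℝ ∞ Φ →
  Pool.Agent.Helper25.FN.Sym 1 (fun z => (Φ z : ℂ)) → ∀ (L : ℝ), 0 < L →
  ∃ R : ℝ, ∀ (z : Fin n → ℂ) (j : Fin n) (s : ℂ), R ≤ nm z → ‖s‖ ≤ L →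
    |Φ (z + sg j s) - Φ z - fderiv ℝ Φ z (sg j s)| ≤ 1 / 4

/-- covering (helper14) -/
def COV : Prop := ∀ (n : ℕ) (P : MvPolynomial (Fin n) ℂ), 1 ≤ P.totalDegree →
  Pool.Agent.Helper25.FN.Good P → ∃ c : ℝ, 0 < c ∧ ∀ z : Fin n → ℂ, 1 ≤ nm z →
    c * (1 + nm z) ^ P.totalDegree ≤ ‖eval z (Pool.Agent.Helper25.FN.lead P)‖ ∨
    ∃ j, c * (1 + nm z) ^ (P.totalDegree - 1) ≤
      ‖eval z (pderiv j (Pool.Agent.Helper25.FN.lead P))‖

/-- the region where `∂_j` is large -/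
def Reg {n : ℕ} (φ : MvPolynomial (Fin n) ℂ) (m : ℕ) (R c : ℝ) : Set (Fin n → ℂ) :=
  {z | R ≤ nm z ∧ c * (1 + nm z) ^ m ≤ ‖eval z φ‖}

theorem measurable_Reg {n : ℕ} (φ : MvPolynomial (Fin n) ℂ) (m : ℕ) (R c : ℝ) :
    MeasurableSet (Reg φ m R c) := by
  refine (IsClosed.inter (isClosed_le continuous_const continuous_nm) ?_).measurableSet
  exact isClosed_le (continuous_const.mul ((continuous_const.add continuous_nm).pow m))
    (continuous_eval' φ).norm

/-- one region -/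
theorem one_region {n : ℕ} (C : ℝ) (hC : 0 < C) (hD : Disc C) (φ : MvPolynomial (Fin n) ℂ) (d : ℕ)
    (hd : 1 ≤ d) (hφ : φ.IsHomogeneous d) (Φ : (Fin n → ℂ) → ℝ) (hΦ : Continuous Φ)
    (hosc : ∀ (L : ℝ), 0 < L →
      ∃ R : ℝ, ∀ (z : Fin n → ℂ) (j : Fin n) (s : ℂ), R ≤ nm z → ‖s‖ ≤ L →
        |Φ (z + sg j s) - Φ z - fderiv ℝ Φ z (sg j s)| ≤ 1 / 4)
    (c : ℝ) (hc : 0 < c) (L' : ℝ) (hL' : 0 < L') (j : Fin n) :
    ∃ R : ℝ, ∀ (f : (Fin n → ℂ) → ℂ), Differentiable ℂ f → Integrable (Fw d Φ f) →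
      Integrable (Gw d φ Φ f) →
      L' * ∫ z in Reg (pderiv j φ) (d - 1) R c, Fw d Φ f z ≤ ∫ z, Gw d φ Φ f z := by
  have hψ : (pderiv j φ).IsHomogeneous (d - 1) := hφ.pderiv
  set c₂ : ℝ := c / 2 ^ d with hc₂
  have hc₂0 : 0 < c₂ := by positivity
  set K : ℝ := C * 4 ^ (d + 1) / c₂ ^ 2 with hK
  have hK0 : 0 < K := by positivity
  set L : ℝ := 1 + 4 * K * L' with hL
  have hL1 : 1 ≤ L := by
    have : 0 < 4 * K * L' := by positivity
    linarith
  have hL0 : 0 < L := by linarith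
  have hLK : 4 * K * L' ≤ L ^ 2 := by nlinarith
  obtain ⟨R1, h1⟩ := slow hψ (c / 2) L (by positivity) hL0
  obtain ⟨R2, h2⟩ := taylor (φ := φ) hψ (c₂ / 40) (2 * L) (by positivity) (by positivity)
  obtain ⟨R3, h3⟩ := hosc (2 * L) (by positivity)
  set R0 : ℝ := 4 * L + |R1| + |R2| + |R3| with hR0
  have a1 := le_abs_self R1
  have a2 := le_abs_self R2
  have a3 := le_abs_self R3
  have b1 := abs_nonneg R1
  have b2 := abs_nonneg R2
  have b3 := abs_nonneg R3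
  refine ⟨R0 + L, fun f hf hFi hGi => ?_⟩
  have key := average_real j (Fw d Φ f) (Gw d φ Φ f) (continuous_Fw d hΦ hf.continuous)
    (continuous_Gw d φ hΦ hf.continuous) (Fw_nonneg d Φ f) (Gw_nonneg d φ Φ f) hFi hGi
    (Reg (pderiv j φ) (d - 1) R0 c₂) (Reg (pderiv j φ) (d - 1) (R0 + L) c)
    (measurable_Reg _ _ _ _) (measurable_Reg _ _ _ _) L (L ^ 2) K hL0 (by positivity) hK0.le
    (by
      intro z hz
      obtain ⟨hz1, hz2⟩ := hz
      refine disc_ineq C hC hD φ d hd Φ hΦ f hf L hL0 z j c₂ hc₂0 hz2 (fun s hs => ?_)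
        (fun s hs => h3 z j s (by linarith) hs) (by linarith)
      refine (h2 z s (by linarith) hs).trans ?_
      have hp : 0 < (1 + nm z) ^ (d - 1) := by
        have := one_nm_pos z
        positivity
      calc c₂ / 40 * (1 + nm z) ^ (d - 1) * ‖s‖ ≤ c₂ / 40 * (1 + nm z) ^ (d - 1) * (2 * L) :=
            mul_le_mul_of_nonneg_left hs (by positivity)
        _ = (c₂ * (1 + nm z) ^ (d - 1)) * L / 20 := by ring
        _ ≤ ‖eval z (pderiv j φ)‖ * L / 20 := by gcongr)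
    (by
      intro w hw s hs
      obtain ⟨hw1, hw2⟩ := hw
      rw [mem_ball_zero_iff] at hs
      have e0 : w - sg j s = w + sg j (-s) := by
        rw [sub_eq_add_neg]
        congr 1
        unfold sg
        rw [Pi.single_neg]
      have hns : ‖(-s : ℂ)‖ ≤ L := by rw [norm_neg]; exact hs.le
      have t1 := nm_add (w + sg j (-s)) (-(sg j (-s)))
      rw [add_neg_cancel_right, nm_neg, nm_single] at t1
      obtain ⟨r1, r2⟩ := ratio w j L (by linarith) (-s) hns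
      have t2 := h1 w j (-s) (by linarith) hns
      have hp : 0 < (1 + nm w) ^ (d - 1) := by
        have := one_nm_pos w
        positivity
      rw [e0]
      refine ⟨by linarith, ?_⟩
      have t3 : ‖eval w (pderiv j φ)‖ ≤ ‖eval (w + sg j (-s)) (pderiv j φ)‖ +
          ‖eval (w + sg j (-s)) (pderiv j φ) - eval w (pderiv j φ)‖ := by
        have := norm_sub_le (eval (w + sg j (-s)) (pderiv j φ))
          (eval (w + sg j (-s)) (pderiv j φ) - eval w (pderiv j φ))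
        rwa [sub_sub_cancel] at this
      have t4 : (1 + nm (w + sg j (-s))) ^ (d - 1) ≤ 2 ^ (d - 1) * (1 + nm w) ^ (d - 1) := by
        rw [← mul_pow]
        exact pow_le_pow_left₀ (one_nm_pos _).le r1 _
      have t5 : c₂ * (2 ^ (d - 1) * (1 + nm w) ^ (d - 1)) = c / 2 * (1 + nm w) ^ (d - 1) := by
        obtain ⟨m, hm⟩ : ∃ m, d = m + 1 := ⟨d - 1, by omega⟩
        rw [hc₂, hm, Nat.add_sub_cancel, pow_succ]
        field_simp
      calc c₂ * (1 + nm (w + sg j (-s))) ^ (d - 1)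
          ≤ c₂ * (2 ^ (d - 1) * (1 + nm w) ^ (d - 1)) := mul_le_mul_of_nonneg_left t4 hc₂0.le
        _ = c / 2 * (1 + nm w) ^ (d - 1) := t5
        _ ≤ ‖eval (w + sg j (-s)) (pderiv j φ)‖ := by linarith)
  have hI : 0 ≤ ∫ z in Reg (pderiv j φ) (d - 1) (R0 + L) c, Fw d Φ f z :=
    integral_nonneg (Fw_nonneg d Φ f)
  have : (4 * K) * (L' * ∫ z in Reg (pderiv j φ) (d - 1) (R0 + L) c, Fw d Φ f z) ≤
      (4 * K) * ∫ z, Gw d φ Φ f z := by
    refine le_trans ?_ key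
    calc (4 * K) * (L' * ∫ z in Reg (pderiv j φ) (d - 1) (R0 + L) c, Fw d Φ f z)
        = (4 * K * L') * ∫ z in Reg (pderiv j φ) (d - 1) (R0 + L) c, Fw d Φ f z := by ring
      _ ≤ L ^ 2 * ∫ z in Reg (pderiv j φ) (d - 1) (R0 + L) c, Fw d Φ f z :=
          mul_le_mul_of_nonneg_right hLK hI
  exact le_of_mul_le_mul_left this (by positivity)

/-- the region where `p` is large -/
theorem zero_region {n : ℕ} (φ : MvPolynomial (Fin n) ℂ) (d : ℕ) (Φ : (Fin n → ℂ) → ℝ) (c : ℝ)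
    (hc : 0 < c) (L' : ℝ) (hL' : 0 < L') :
    ∃ R : ℝ, ∀ (f : (Fin n → ℂ) → ℂ), Integrable (Fw d Φ f) →
      Integrable (Gw d φ Φ f) →
      L' * ∫ z in Reg φ d R c, Fw d Φ f z ≤ ∫ z, Gw d φ Φ f z := by
  refine ⟨L' / c ^ 2, fun f hFi hGi => ?_⟩
  refine le_trans ?_ (setIntegral_le_integral hGi (Filter.Eventually.of_forall
    (Gw_nonneg d φ Φ f)) (s := Reg φ d (L' / c ^ 2) c))
  rw [← integral_const_mul]
  refine setIntegral_mono_on (hFi.integrableOn.const_mul L') hGi.integrableOn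
    (measurable_Reg _ _ _ _) fun z hz => ?_
  obtain ⟨hz1, hz2⟩ := hz
  have hz : 0 < 1 + nm z := one_nm_pos z
  rw [div_le_iff₀ (by positivity)] at hz1
  have e1 : (1 + nm z) ^ (d : ℤ) * (1 + nm z) ^ (-(d : ℤ)) = 1 := by
    rw [← zpow_add₀ hz.ne', add_neg_cancel, zpow_zero]
  have e2 : (1 + nm z) ^ (d : ℤ) * (1 + nm z) ^ (-(2 : ℤ)) = (1 + nm z) ^ ((d : ℤ) - 2) := by
    rw [← zpow_add₀ hz.ne', sub_eq_add_neg]
  have h3 : L' * (1 + nm z) ^ ((d : ℤ) - 2) ≤ ‖eval z φ‖ ^ 2 * (1 + nm z) ^ (-(d : ℤ)) := by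
    calc L' * (1 + nm z) ^ ((d : ℤ) - 2) ≤ (c ^ 2 * (1 + nm z) ^ 2) * (1 + nm z) ^ ((d : ℤ) - 2) := by
          refine mul_le_mul_of_nonneg_right ?_ (by positivity)
          have : nm z * c ^ 2 ≤ c ^ 2 * (1 + nm z) ^ 2 := by
            have h0 := nm_nonneg z
            have : 0 < c ^ 2 := by positivity
            nlinarith
          linarith
      _ = (c ^ 2 * ((1 + nm z) ^ (d : ℤ)) ^ 2) * (1 + nm z) ^ (-(d : ℤ)) := by
          rw [← e2, zpow_neg (1 + nm z) 2]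
          have e3 : (1 + nm z) ^ (2 : ℤ) = (1 + nm z) ^ 2 := by norm_cast
          rw [e3, zpow_neg]
          have : (1 + nm z) ^ (d : ℤ) ≠ 0 := by positivity
          field_simp
      _ = (c * (1 + nm z) ^ d) ^ 2 * (1 + nm z) ^ (-(d : ℤ)) := by
          rw [mul_pow, zpow_natCast]
      _ ≤ ‖eval z φ‖ ^ 2 * (1 + nm z) ^ (-(d : ℤ)) := by
          refine mul_le_mul_of_nonneg_right ?_ (by positivity)
          exact pow_le_pow_left₀ (by positivity) hz2 2
  rw [Fw, Gw]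
  calc L' * (‖f z‖ ^ 2 * ((1 + nm z) ^ ((d : ℤ) - 2) * Real.exp (-2 * Φ z)))
      = ‖f z‖ ^ 2 * ((L' * (1 + nm z) ^ ((d : ℤ) - 2)) * Real.exp (-2 * Φ z)) := by ring
    _ ≤ ‖f z‖ ^ 2 * ((‖eval z φ‖ ^ 2 * (1 + nm z) ^ (-(d : ℤ))) * Real.exp (-2 * Φ z)) := by
        gcongr

theorem main (hDISC : Pool.Agent.Helper25.FN.S_DISC) (hOSC : OSC) (hCOV : COV) :
    Pool.Agent.Helper25.FN.S_GAIN := by
  intro n P Φ hd hP hΦ hsym L hL
  obtain ⟨C, hC, hD⟩ := hDISC
  obtain ⟨c, hc, hcov⟩ := hCOV n P hd hP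
  obtain ⟨φ, hφe⟩ : ∃ φ, φ = Pool.Agent.Helper25.FN.lead P := ⟨_, rfl⟩
  have hφ : φ.IsHomogeneous P.totalDegree := by
    rw [hφe]; exact homogeneousComponent_isHomogeneous _ _
  rw [← hφe] at hcov
  obtain ⟨d, hde⟩ : ∃ d, d = P.totalDegree := ⟨_, rfl⟩
  rw [← hde] at hd hφ hcov
  set L' : ℝ := (n + 1) * L with hL'
  have hL'0 : 0 < L' := by positivity
  obtain ⟨R0, h0⟩ := zero_region φ d Φ c hc L' hL'0
  choose Rj hj using fun j => one_region C hC hD φ d hd hφ Φ hΦ.continuous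
    (fun L hL => hOSC n Φ hΦ hsym L hL) c hc L' hL'0 j
  obtain ⟨R, hR1, hR0, hRj⟩ : ∃ R : ℝ, 1 ≤ R ∧ R0 ≤ R ∧ ∀ j, Rj j ≤ R := by
    refine ⟨1 + |R0| + ∑ j, |Rj j|, ?_, ?_, fun j => ?_⟩
    · have : 0 ≤ ∑ j, |Rj j| := Finset.sum_nonneg fun j _ => abs_nonneg _
      have := abs_nonneg R0
      linarith
    · have : 0 ≤ ∑ j, |Rj j| := Finset.sum_nonneg fun j _ => abs_nonneg _
      have := le_abs_self R0
      linarith
    · have h1 : |Rj j| ≤ ∑ j, |Rj j| :=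
        Finset.single_le_sum (f := fun j => |Rj j|) (fun i _ => abs_nonneg _) (Finset.mem_univ j)
      have := abs_nonneg R0
      have := le_abs_self (Rj j)
      linarith
  -- bound on the compact part
  have hwc : Continuous fun z : Fin n → ℂ => (1 + nm z) ^ ((d : ℤ) - 2) * Real.exp (-2 * Φ z) :=
    (continuous_zp _).mul (Real.continuous_exp.comp (continuous_const.mul hΦ.continuous))
  obtain ⟨M, hM⟩ := (isCompact_nm_le (n := n) R).exists_bound_of_continuousOn hwc.continuousOn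
  refine ⟨L * |M|, R, fun f hf => ?_⟩
  obtain ⟨hf1, hf2⟩ := hf
  have hfd : Differentiable ℂ f := hf1
  have hsum : ∀ z, ‖f z‖ ^ 2 * Pool.Agent.Helper25.FN.den P Φ z = Gw d φ Φ f z + Fw d Φ f z := by
    intro z
    rw [hφe, hde, Gw, Fw]
    show ‖f z‖ ^ 2 * ((‖eval z (Pool.Agent.Helper25.FN.lead P)‖ ^ 2 *
      (1 + nm z) ^ (-(P.totalDegree : ℤ)) + (1 + nm z) ^ ((P.totalDegree : ℤ) - 2)) *
      Real.exp (-2 * Φ z)) = _
    ring
  have hint : Integrable fun z => Gw d φ Φ f z + Fw d Φ f z := by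
    simpa only [← hsum] using hf2
  have hFi : Integrable (Fw d Φ f) := by
    refine hint.mono' (continuous_Fw d hΦ.continuous hfd.continuous).aestronglyMeasurable
      (Filter.Eventually.of_forall fun z => ?_)
    rw [Real.norm_of_nonneg (Fw_nonneg d Φ f z)]
    have := Gw_nonneg d φ Φ f z
    linarith
  have hGi : Integrable (Gw d φ Φ f) := by
    refine hint.mono' (continuous_Gw d φ hΦ.continuous hfd.continuous).aestronglyMeasurable
      (Filter.Eventually.of_forall fun z => ?_)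
    rw [Real.norm_of_nonneg (Gw_nonneg d φ Φ f z)]
    have := Fw_nonneg d Φ f z
    linarith
  have hfK : IntegrableOn (fun z => ‖f z‖ ^ 2) {z : Fin n → ℂ | nm z ≤ R} :=
    (hfd.continuous.norm.pow 2).continuousOn.integrableOn_compact (isCompact_nm_le R)
  have hKm : MeasurableSet {z : Fin n → ℂ | nm z ≤ R} := (isCompact_nm_le R).measurableSet
  -- pointwise covering
  have hpt : ∀ z, Fw d Φ f z ≤ {z : Fin n → ℂ | nm z ≤ R}.indicator (fun z => |M| * ‖f z‖ ^ 2) z +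
      (Reg φ d R0 c).indicator (Fw d Φ f) z +
      ∑ j, (Reg (pderiv j φ) (d - 1) (Rj j) c).indicator (Fw d Φ f) z := by
    intro z
    have hF0 := Fw_nonneg d Φ f
    have i1 : 0 ≤ {z : Fin n → ℂ | nm z ≤ R}.indicator (fun z => |M| * ‖f z‖ ^ 2) z :=
      Set.indicator_nonneg (fun z _ => by positivity) z
    have i2 : 0 ≤ (Reg φ d R0 c).indicator (Fw d Φ f) z :=
      Set.indicator_nonneg (fun z _ => hF0 z) z
    have i3 : ∀ j, 0 ≤ (Reg (pderiv j φ) (d - 1) (Rj j) c).indicator (Fw d Φ f) z := fun j =>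
      Set.indicator_nonneg (fun z _ => hF0 z) z
    have i4 : 0 ≤ ∑ j, (Reg (pderiv j φ) (d - 1) (Rj j) c).indicator (Fw d Φ f) z :=
      Finset.sum_nonneg fun j _ => i3 j
    by_cases hz : nm z ≤ R
    · rw [Set.indicator_of_mem (show z ∈ {z : Fin n → ℂ | nm z ≤ R} from hz)]
      have h1 : Fw d Φ f z ≤ |M| * ‖f z‖ ^ 2 := by
        rw [Fw, mul_comm]
        refine mul_le_mul_of_nonneg_right ?_ (by positivity)
        exact (le_abs_self _).trans ((hM z hz).trans (le_abs_self M))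
      linarith
    · push Not at hz
      rcases hcov z (by linarith) with h | ⟨j, h⟩
      · rw [Set.indicator_of_mem (show z ∈ Reg φ d R0 c from ⟨by linarith, h⟩)]
        linarith
      · have h1 : Fw d Φ f z ≤ ∑ j, (Reg (pderiv j φ) (d - 1) (Rj j) c).indicator (Fw d Φ f) z := by
          refine le_trans (le_of_eq ?_) (Finset.single_le_sum (f := fun j =>
            (Reg (pderiv j φ) (d - 1) (Rj j) c).indicator (Fw d Φ f) z) (fun i _ => i3 i)
            (Finset.mem_univ j))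
          exact (Set.indicator_of_mem (show z ∈ Reg (pderiv j φ) (d - 1) (Rj j) c from
            ⟨(hRj j).trans hz.le, h⟩) _).symm
        linarith
  have hI1 : Integrable ({z : Fin n → ℂ | nm z ≤ R}.indicator (fun z => |M| * ‖f z‖ ^ 2)) :=
    (integrable_indicator_iff hKm).2 (hfK.const_mul |M|)
  have hI2 : Integrable ((Reg φ d R0 c).indicator (Fw d Φ f)) :=
    hFi.indicator (measurable_Reg _ _ _ _)
  have hI3 : ∀ j ∈ (Finset.univ : Finset (Fin n)),
      Integrable ((Reg (pderiv j φ) (d - 1) (Rj j) c).indicator (Fw d Φ f)) := fun j _ =>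
    hFi.indicator (measurable_Reg _ _ _ _)
  have htot : ∫ z, Fw d Φ f z ≤ |M| * (∫ z in {z : Fin n → ℂ | nm z ≤ R}, ‖f z‖ ^ 2) +
      (∫ z in Reg φ d R0 c, Fw d Φ f z) +
      ∑ j, ∫ z in Reg (pderiv j φ) (d - 1) (Rj j) c, Fw d Φ f z := by
    have h1 := integral_mono hFi ((hI1.add hI2).add (integrable_finsetSum _ hI3)) hpt
    have h2 : (∫ z, ({z : Fin n → ℂ | nm z ≤ R}.indicator (fun z => |M| * ‖f z‖ ^ 2) z +
        (Reg φ d R0 c).indicator (Fw d Φ f) z +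
        ∑ j, (Reg (pderiv j φ) (d - 1) (Rj j) c).indicator (Fw d Φ f) z)) =
        |M| * (∫ z in {z : Fin n → ℂ | nm z ≤ R}, ‖f z‖ ^ 2) +
      (∫ z in Reg φ d R0 c, Fw d Φ f z) +
      ∑ j, ∫ z in Reg (pderiv j φ) (d - 1) (Rj j) c, Fw d Φ f z := by
      have hI12 : Integrable (fun z => {z : Fin n → ℂ | nm z ≤ R}.indicator
          (fun z => |M| * ‖f z‖ ^ 2) z + (Reg φ d R0 c).indicator (Fw d Φ f) z) := hI1.add hI2
      have hI4 : Integrable (fun z => ∑ j, (Reg (pderiv j φ) (d - 1) (Rj j) c).indicator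
          (Fw d Φ f) z) := integrable_finsetSum _ hI3
      rw [integral_add hI12 hI4, integral_add hI1 hI2,
        integral_finsetSum _ hI3, integral_indicator hKm, integral_const_mul,
        integral_indicator (measurable_Reg _ _ _ _)]
      congr 1
      refine Finset.sum_congr rfl fun j _ => ?_
      exact integral_indicator (measurable_Reg _ _ _ _)
    exact le_trans h1 (le_of_eq h2)
  have g0 := h0 f hFi hGi
  have gj : ∀ j, L' * ∫ z in Reg (pderiv j φ) (d - 1) (Rj j) c, Fw d Φ f z ≤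
      ∫ z, Gw d φ Φ f z := fun j => hj j f hfd hFi hGi
  have gs : L' * ∑ j, ∫ z in Reg (pderiv j φ) (d - 1) (Rj j) c, Fw d Φ f z ≤
      n * ∫ z, Gw d φ Φ f z := by
    rw [Finset.mul_sum]
    refine (Finset.sum_le_sum fun j _ => gj j).trans ?_
    simp
  have hfin : L * ∫ z, Fw d Φ f z ≤ (∫ z, Gw d φ Φ f z) +
      L * |M| * ∫ z in {z : Fin n → ℂ | nm z ≤ R}, ‖f z‖ ^ 2 := by
    set A := ∫ z, Fw d Φ f z
    set B := ∫ z in {z : Fin n → ℂ | nm z ≤ R}, ‖f z‖ ^ 2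
    set T := ∫ z in Reg φ d R0 c, Fw d Φ f z
    set U := ∑ j, ∫ z in Reg (pderiv j φ) (d - 1) (Rj j) c, Fw d Φ f z
    set G := ∫ z, Gw d φ Φ f z
    have hn : (0 : ℝ) < n + 1 := by positivity
    have h1 : (n + 1) * (L * (T + U)) ≤ (n + 1) * G := by
      calc (n + 1) * (L * (T + U)) = L' * T + L' * U := by rw [hL']; ring
        _ ≤ G + n * G := add_le_add g0 gs
        _ = (n + 1) * G := by ring
    have h2 := le_of_mul_le_mul_left h1 hn
    have h3 : L * A ≤ L * (|M| * B + T + U) := mul_le_mul_of_nonneg_left htot hL.le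
    calc L * A ≤ L * (|M| * B + T + U) := h3
      _ = L * (T + U) + L * |M| * B := by ring
      _ ≤ G + L * |M| * B := by linarith
  rw [hφe, hde] at hfin
  exact hfin

end Pool.Agent.Helper34.FN.GAIN
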