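import Pool.Agent.Helper34.FN.Base

/-!
# Swarm FN, part GAIN: averaging over translations
-/

set_option autoImplicit false

namespace Pool.Agent.Helper34.FN

open MeasureTheory MvPolynomial
open scoped ENNReal

theorem continuous_sg {n : ℕ} (j : Fin n) : Continuous (sg j : ℂ → Fin n → ℂ) := by
  refine continuous_pi fun i => ?_
  by_cases h : i = j
  · subst h
    simp only [sg, Pi.single_eq_same]
    exact continuous_id'
  · simp only [sg, Pi.single_eq_of_ne h]
    exact continuous_const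

/-- averaging over translations, `lintegral` form -/
theorem average {n : ℕ} (j : Fin n) (F G : (Fin n → ℂ) → ℝ≥0∞) (hF : Measurable F)
    (hG : Measurable G) (S T : Set (Fin n → ℂ)) (hS : MeasurableSet S) (hT : MeasurableSet T)
    (B₁ B₂ : Set ℂ) (hB₁ : MeasurableSet B₁) (A K : ℝ≥0∞)
    (h : ∀ z ∈ S, A * ∫⁻ s in B₁, F (z + sg j s) ≤ K * ∫⁻ s in B₂, G (z + sg j s))
    (hST : ∀ w ∈ T, ∀ s ∈ B₁, w - sg j s ∈ S) :
    A * volume B₁ * ∫⁻ w in T, F w ≤ K * volume B₂ * ∫⁻ w, G w := by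
  have hadd : Measurable (fun p : (Fin n → ℂ) × ℂ => p.1 + sg j p.2) :=
    (continuous_fst.add ((continuous_sg j).comp continuous_snd)).measurable
  have hFm : Measurable (fun p : (Fin n → ℂ) × ℂ => F (p.1 + sg j p.2)) := hF.comp hadd
  have hGm : Measurable (fun p : (Fin n → ℂ) × ℂ => G (p.1 + sg j p.2)) := hG.comp hadd
  have h1 : A * ∫⁻ z in S, ∫⁻ s in B₁, F (z + sg j s) ≤
      K * ∫⁻ z, ∫⁻ s in B₂, G (z + sg j s) := by
    rw [← lintegral_const_mul _ hFm.lintegral_prod_right', ← lintegral_const_mul _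
      hGm.lintegral_prod_right']
    calc ∫⁻ z in S, A * ∫⁻ s in B₁, F (z + sg j s)
        ≤ ∫⁻ z in S, K * ∫⁻ s in B₂, G (z + sg j s) := setLIntegral_mono'  hS h
      _ ≤ ∫⁻ z, K * ∫⁻ s in B₂, G (z + sg j s) := setLIntegral_le_lintegral _ _
  have h2 : ∫⁻ z, ∫⁻ s in B₂, G (z + sg j s) = volume B₂ * ∫⁻ w, G w := by
    rw [lintegral_lintegral_swap hGm.aemeasurable]
    simp only [lintegral_add_right_eq_self]
    rw [lintegral_const, Measure.restrict_apply_univ, mul_comm]
  have h3 : volume B₁ * ∫⁻ w in T, F w ≤ ∫⁻ z in S, ∫⁻ s in B₁, F (z + sg j s) := by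
    rw [lintegral_lintegral_swap hFm.aemeasurable, mul_comm, ← Measure.restrict_apply_univ B₁,
      ← lintegral_const]
    refine setLIntegral_mono' hB₁ fun s hs => ?_
    rw [← lintegral_indicator hT, ← lintegral_indicator hS,
      ← lintegral_add_right_eq_self _ (sg j s)]
    refine lintegral_mono fun z => ?_
    by_cases hz : z + sg j s ∈ T
    · rw [Set.indicator_of_mem hz]
      have := hST _ hz s hs
      rw [add_sub_cancel_right] at this
      rw [Set.indicator_of_mem this]
    · rw [Set.indicator_of_notMem hz]; exact zero_le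
  calc A * volume B₁ * ∫⁻ w in T, F w = A * (volume B₁ * ∫⁻ w in T, F w) := mul_assoc _ _ _
    _ ≤ A * ∫⁻ z in S, ∫⁻ s in B₁, F (z + sg j s) := mul_le_mul_right h3 _
    _ ≤ K * ∫⁻ z, ∫⁻ s in B₂, G (z + sg j s) := h1
    _ = K * volume B₂ * ∫⁻ w, G w := by rw [h2, mul_assoc]

/-- averaging over translations, real form -/
theorem average_real {n : ℕ} (j : Fin n) (F G : (Fin n → ℂ) → ℝ) (hF : Continuous F)
    (hG : Continuous G) (hF0 : ∀ z, 0 ≤ F z) (hG0 : ∀ z, 0 ≤ G z) (hFi : Integrable F)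
    (hGi : Integrable G) (S T : Set (Fin n → ℂ)) (hS : MeasurableSet S) (hT : MeasurableSet T)
    (L A K : ℝ) (hL : 0 < L) (hA : 0 ≤ A) (hK : 0 ≤ K)
    (h : ∀ z ∈ S, A * ∫ s in Metric.ball (0 : ℂ) L, F (z + sg j s) ≤
      K * ∫ s in Metric.ball (0 : ℂ) (2 * L), G (z + sg j s))
    (hST : ∀ w ∈ T, ∀ s ∈ Metric.ball (0 : ℂ) L, w - sg j s ∈ S) :
    A * ∫ w in T, F w ≤ 4 * K * ∫ w, G w := by
  have hint : ∀ (H : (Fin n → ℂ) → ℝ), Continuous H → ∀ (z : Fin n → ℂ) (r : ℝ),
      IntegrableOn (fun s => H (z + sg j s)) (Metric.ball (0 : ℂ) r) := by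
    intro H hH z r
    refine IntegrableOn.mono_set (t := Metric.closedBall (0 : ℂ) r) ?_ Metric.ball_subset_closedBall
    refine ContinuousOn.integrableOn_compact (isCompact_closedBall 0 r) ?_
    exact (hH.comp (continuous_const.add (continuous_sg j))).continuousOn
  have key := average j (fun z => ENNReal.ofReal (F z)) (fun z => ENNReal.ofReal (G z))
    hF.measurable.ennreal_ofReal hG.measurable.ennreal_ofReal S T hS hT (Metric.ball 0 L)
    (Metric.ball 0 (2 * L)) Metric.isOpen_ball.measurableSet (ENNReal.ofReal A) (ENNReal.ofReal K)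
    (by
      intro z hz
      rw [← ofReal_integral_eq_lintegral_ofReal (hint F hF z L)
        (Filter.Eventually.of_forall fun s => hF0 _),
        ← ofReal_integral_eq_lintegral_ofReal (hint G hG z (2 * L))
        (Filter.Eventually.of_forall fun s => hG0 _),
        ← ENNReal.ofReal_mul hA, ← ENNReal.ofReal_mul hK]
      exact ENNReal.ofReal_le_ofReal (h z hz)) hST
  rw [← ofReal_integral_eq_lintegral_ofReal hFi.integrableOn
        (Filter.Eventually.of_forall fun s => hF0 _),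
      ← ofReal_integral_eq_lintegral_ofReal hGi (Filter.Eventually.of_forall fun s => hG0 _),
      Complex.volume_ball, Complex.volume_ball] at key
  have hv : ∀ r : ℝ, 0 ≤ r → ENNReal.ofReal r ^ 2 * (NNReal.pi : ℝ≥0∞) =
      ENNReal.ofReal (r ^ 2 * Real.pi) := by
    intro r hr
    rw [ENNReal.ofReal_mul (by positivity), ENNReal.ofReal_pow hr]
    congr 1
    rw [← NNReal.coe_real_pi, ENNReal.ofReal_coe_nnreal]
  rw [hv L hL.le, hv (2 * L) (by positivity), ← ENNReal.ofReal_mul hA, ← ENNReal.ofReal_mul hK,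
    ← ENNReal.ofReal_mul (by positivity), ← ENNReal.ofReal_mul (by positivity)] at key
  have hG1 : 0 ≤ ∫ w, G w := integral_nonneg hG0
  have key2 := (ENNReal.ofReal_le_ofReal_iff (by positivity)).1 key
  have hp : 0 < L ^ 2 * Real.pi := by positivity
  have : (L ^ 2 * Real.pi) * (A * ∫ w in T, F w) ≤ (L ^ 2 * Real.pi) * (4 * K * ∫ w, G w) := by
    nlinarith [key2]
  exact le_of_mul_le_mul_left this hp

end Pool.Agent.Helper34.FN
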